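import Pool.Agent.R367.TF.Main1
import Pool.Agent.R367.TF.Main2
import Pool.Agent.R367.TF.Cor
import Pool.Agent.R367.TF.SUP
import Pool.Agent.R367.TF.NUM1
import Pool.Agent.R367.TF.NUM2
import Pool.Agent.R367.TF.LOC
import Pool.Agent.R367.TF.CHASE
import Pool.Agent.R367.TF.CORE
import Pool.Agent.R367.TF.DEG
import Pool.Agent.R367.TF.TREE
import Pool.Agent.R367.TF.EMB
import Pool.Agent.R367.TF.LOW
import Pool.Agent.R367.TF.OUT
import Pool.Agent.R367.TF.COV
import Pool.Agent.R367.TF.CNT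
import Pool.Agent.R367.TF.MISS

set_option autoImplicit false

namespace Pool.Agent.Results.MP_8c28bb_co.LeafHeavyTrees

open R367.TF

/-- The number of neighbours of `x` which are leaves. -/
noncomputable def leafNeighbours {k : ℕ} (T : SimpleGraph (Fin k)) (x : Fin k) : ℕ :=
  {y : Fin k | T.Adj x y ∧ ∀ u, T.Adj y u → u = x}.ncard

/-- The number of neighbours of `x` which are not leaves. -/
noncomputable def nonleafNeighbours {k : ℕ} (T : SimpleGraph (Fin k)) (x : Fin k) : ℕ :=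
  {y : Fin k | T.Adj x y ∧ ∃ u, T.Adj y u ∧ u ≠ x}.ncard

/-- `ex(n, K_r, T) = a C(k-1,r) + C(b,r)` for `n = a (k-1) + b`, `0 ≤ b < k - 1`. -/
def Exact {k : ℕ} (T : SimpleGraph (Fin k)) (r n : ℕ) : Prop :=
  (∀ G : SimpleGraph (Fin n), T.Free G →
    {s : Finset (Fin n) | G.IsNClique r s}.ncard ≤
      (n / (k - 1)) * Nat.choose (k - 1) r + Nat.choose (n % (k - 1)) r) ∧
  (∃ G : SimpleGraph (Fin n), T.Free G ∧
    {s : Finset (Fin n) | G.IsNClique r s}.ncard =
      (n / (k - 1)) * Nat.choose (k - 1) r + Nat.choose (n % (k - 1)) r)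

theorem exact_of_upper {k : ℕ} (hk : 2 ≤ k) (T : SimpleGraph (Fin k)) (hT : T.IsTree) {r n : ℕ}
    (hr : 1 ≤ r)
    (h : ∀ G : SimpleGraph (Fin n), T.Free G →
      {s : Finset (Fin n) | G.IsNClique r s}.ncard ≤ f (k - 1) r n) : Exact T r n := by
  refine ⟨h, blk n (k - 1), H223R3.Tree.blocks_free hk T hT, ?_⟩
  exact le_antisymm (h _ (H223R3.Tree.blocks_free hk T hT))
    (LOW.main n (k - 1) r (by omega) hr)

theorem lf_eq {k : ℕ} (T : SimpleGraph (Fin k)) (x : Fin k) :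
    leafNeighbours T x = (lf T x).card := by
  unfold leafNeighbours
  rw [← Set.ncard_coe_finset]
  congr 1
  ext y
  rw [Finset.mem_coe, mem_lf]
  rfl

theorem nl_eq {k : ℕ} (T : SimpleGraph (Fin k)) (x : Fin k) :
    nonleafNeighbours T x = (nl T x).card := by
  unfold nonleafNeighbours
  rw [← Set.ncard_coe_finset]
  congr 1
  ext y
  rw [Finset.mem_coe, mem_nl]
  rfl

/-- Let `T` be a tree with `k ≥ 2` vertices.
(1) Suppose that a vertex `x` of `T` has `l` leaf neighbours and `j` other neighbours, with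
`k ≤ 2 (l + 1)` and one of `j ≤ 1`, `5 k ≤ 9 l`, `3 C(k-2-l,2) ≤ C(k-j,2)`. Then
`ex(n, K_r, T) = a C(k-1,r) + C(b,r)` for all `r ≥ 3` and all `n`. In particular this holds for all
double stars and brooms `k ≤ 2 (l + 1)`.
(2) Suppose that the edges of `T` are covered by a set `S` of `t` vertices, and `r ≥ t + 2`,
`(k-1-t)(k-2-t) ≤ 2 (r-t)(r-t-1)`. Then the same holds for all `n`. -/
theorem result : ∀ (k : ℕ), 2 ≤ k → ∀ T : SimpleGraph (Fin k), T.IsTree →
    (∀ x : Fin k, k ≤ 2 * (leafNeighbours T x + 1) →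
      (nonleafNeighbours T x ≤ 1 ∨ 5 * k ≤ 9 * leafNeighbours T x ∨
        3 * (k - 2 - leafNeighbours T x).choose 2 ≤ (k - nonleafNeighbours T x).choose 2) →
      ∀ r : ℕ, 3 ≤ r → ∀ n : ℕ, Exact T r n) ∧
    (∀ S : Finset (Fin k), (∀ a b, T.Adj a b → a ∈ S ∨ b ∈ S) →
      ∀ r : ℕ, S.card + 2 ≤ r →
      (k - 1 - S.card) * (k - 2 - S.card) ≤ 2 * ((r - S.card) * (r - S.card - 1)) →
      ∀ n : ℕ, Exact T r n) := by
  intro k hk T hT
  refine ⟨fun x h1 h2 r hr n => ?_, fun S hS r hr hr2 n => ?_⟩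
  · rw [lf_eq] at h1 h2
    rw [nl_eq] at h2
    apply exact_of_upper hk T hT (by omega)
    intro G hG
    refine upper1 SUP.main NUM1.main NUM2.main (CHASE.main SUP.main LOC.main) CORE.main DEG.main
      (EMB.main TREE.main) hk T hT x h1 ?_ hr G hG
    rcases h2 with h2 | h2 | h2
    · exact Or.inl h2
    · exact Or.inr (num_cor (two_nl TREE.main T hT x) h2 hk)
    · exact Or.inr h2
  · apply exact_of_upper hk T hT (by omega)
    intro G hG
    classical
    rw [ncard_eq]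
    refine upper2 SUP.main OUT.main COV.main CNT.main MISS.main hk T hT S hS hr hr2 G ?_ n
      Finset.univ (by simp)
    intro φ hφ hadj
    exact hG ⟨⟨⟨φ, fun {a b} hab => hadj a b hab⟩, hφ⟩⟩

end Pool.Agent.Results.MP_8c28bb_co.LeafHeavyTrees
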